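import Mathlib

set_option autoImplicit false

namespace Pool.Agent.Results.MP_6d1e65_an.Strongest

open Set
open scoped ENNReal

/-- distance distribution functions -/
structure DDF where
  f : ℝ≥0∞ → ℝ
  mono : Monotone f
  zero : f 0 = 0
  top : f ⊤ = 1
  lc : ∀ x, x ≠ 0 → x ≠ ⊤ → ∀ t < f x, ∃ y < x, t < f y

/-- `F` is the unit step at `0` -/
def Eps0 (F : DDF) : Prop := ∀ x, x ≠ 0 → F.f x = 1

/-- `F` is the unit step at infinity -/
def EpsInf (F : DDF) : Prop := ∀ x, x ≠ ⊤ → F.f x = 0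

/-- triangle functions -/
def Tri (τ : DDF → DDF → DDF) : Prop :=
  (∀ F G, τ F G = τ G F) ∧ (∀ F G H, τ (τ F G) H = τ F (τ G H)) ∧
  (∀ F F' G, F.f ≤ F'.f → (τ F G).f ≤ (τ F' G).f) ∧ ∀ E F, Eps0 E → τ E F = F

/-- universal for simple spaces -/
def Univ (τ : DDF → DDF → DDF) : Prop :=
  ∀ (S : Type) [EMetricSpace S] (G : DDF), ¬ Eps0 G → ¬ EpsInf G → ∀ P : S → S → DDF,
    (∀ p q x, x ≠ ⊤ → (P p q).f x = G.f (x / edist p q)) →
    ∀ p q r, (τ (P p q) (P q r)).f ≤ (P p r).f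

noncomputable def sc (G : DDF) (d : ℝ≥0∞) (hd : d ≠ ⊤) : DDF where
  f x := G.f (x / d)
  mono _ _ h := G.mono (ENNReal.div_le_div_right h d)
  zero := by simp [G.zero]
  top := by simp [ENNReal.top_div_of_ne_top hd, G.top]
  lc x h0 h1 t ht := by
    by_cases h : d = 0
    · refine ⟨x / 2, ENNReal.half_lt_self h0 h1, ?_⟩
      rwa [h, ENNReal.div_zero (by simpa using h0), ← ENNReal.div_zero h0, ← h]
    · obtain ⟨y, y1, y2⟩ := G.lc _ (by simp [h0, hd]) (ENNReal.div_ne_top h1 h) t ht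
      exact ⟨y * d, ENNReal.mul_lt_of_lt_div y1, by rwa [ENNReal.mul_div_cancel_right h hd]⟩

def mx (F G : DDF) : DDF where
  f x := max (F.f x) (G.f x)
  mono := F.mono.max G.mono
  zero := by simp [F.zero, G.zero]
  top := by simp [F.top, G.top]
  lc x h0 h1 t ht := (lt_max_iff.1 ht).elim
    (fun h => (F.lc x h0 h1 t h).imp fun _ h => ⟨h.1, lt_max_of_lt_left h.2⟩)
    (fun h => (G.lc x h0 h1 t h).imp fun _ h => ⟨h.1, lt_max_of_lt_right h.2⟩)

theorem result (τ : DDF → DDF → DDF) (h1 : Tri τ) (h2 : Univ τ) (F G : DDF) (x : ℝ≥0∞) :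
    (τ F G).f x ≤ sSup {t | ∃ u v, u + v = x ∧ t = min (F.f u) (G.f v)} := by
  have l1 : ∀ (F : DDF) x, F.f x ≤ 1 := fun F x => (F.mono le_top).trans F.top.le
  have ht : ∀ u v, u + v = x → min (F.f u) (G.f v) ≤
      sSup {t | ∃ u v, u + v = x ∧ t = min (F.f u) (G.f v)} := fun u v h =>
    le_csSup ⟨1, by rintro _ ⟨u, v, -, rfl⟩; exact min_le_of_left_le (l1 _ _)⟩ ⟨u, v, h, rfl⟩
  generalize sSup {t | ∃ u v, u + v = x ∧ t = min (F.f u) (G.f v)} = t at ht
  have t0 : 0 ≤ t := by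
    refine le_trans (le_min F.zero.ge ?_) (ht 0 x (zero_add x))
    exact G.zero.ge.trans (G.mono zero_le)
  by_contra h
  push Not at h
  have x0 : x ≠ 0 := by rintro rfl; rw [DDF.zero] at h; linarith
  have x1 : x ≠ ⊤ := by
    rintro rfl
    have := ht ⊤ ⊤ (top_add _)
    rw [F.top, G.top, min_self] at this
    linarith [l1 (τ F G) ⊤]
  have le : ∀ F G : DDF, (τ F G).f ≤ G.f := fun F G => by
    have e : Eps0 (sc F 0 ENNReal.zero_ne_top) := fun x hx => by simp [sc, ENNReal.div_zero hx, F.top]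
    refine (h1.2.2.1 F _ G fun x => ?_).trans (by rw [h1.2.2.2 _ G e])
    by_cases hx : x = 0
    · simp [hx, DDF.zero]
    · rw [e x hx]; exact l1 _ _
  have hG := h.trans_le (le F G x)
  have hF := h.trans_le (h1.1 F G ▸ le G F x)
  have lo : ∀ (F : DDF) a, a ≠ 0 → a ≠ ⊤ → a ≤ sInf {u | t < F.f u} → F.f a ≤ t :=
    fun F a a0 a1 h => not_lt.1 fun h' =>
      (F.lc a a0 a1 t h').elim fun y hy => hy.1.not_ge (h.trans (sInf_le hy.2))
  have up : ∀ F : DDF, t < F.f x → sInf {u | t < F.f u} < x := fun F h =>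
    (F.lc x x0 x1 t h).elim fun y hy => lt_of_le_of_lt (sInf_le hy.2) hy.1
  have hs : x ≤ sInf {u | t < F.f u} + sInf {u | t < G.f u} := by
    rw [sInf_eq_iInf, sInf_eq_iInf]
    refine ENNReal.le_iInf₂_add_iInf₂ fun u hu v hv => not_lt.1 fun h => ?_
    have h3 : v ≤ x := le_add_self.trans h.le
    exact (ht (x - v) v (tsub_add_cancel_of_le h3)).not_gt
      (lt_min (hu.trans_le (F.mono (ENNReal.le_sub_of_add_le_right (ne_top_of_le_ne_top x1 h3) h.le))) hv)
  have a1 := up F hF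
  have a2 := up G hG
  have a3 := lo F (sInf {u | t < F.f u})
  generalize sInf {u | t < F.f u} = a at hs a1 a3
  have a0 : a ≠ 0 := by rintro rfl; exact a2.not_ge (by simpa using hs)
  have b0 : x - a ≠ 0 := (tsub_pos_of_lt a1).ne'
  have b1 : x - a ≠ ⊤ := ENNReal.sub_ne_top x1
  have b2 := lo G (x - a) b0 b1 (tsub_le_iff_left.2 hs)
  have a4 := a3 a0 a1.ne_top le_rfl
  have e : a + (x - a) = x := add_tsub_cancel_of_le a1.le
  generalize x - a = b at b0 b1 b2 e
  let H := mx (sc F a⁻¹ (by simpa)) (sc G b⁻¹ (by simpa))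
  have H1 : H.f 1 ≤ t := by simp [H, mx, sc, a4, b2]
  have H2 : ∀ z, F.f z ≤ H.f (z / a) := fun z => le_max_of_le_left (by
    simp [sc, div_eq_mul_inv, mul_assoc, ENNReal.inv_mul_cancel a0 a1.ne_top])
  have H3 : ∀ z, G.f z ≤ H.f (z / b) := fun z => le_max_of_le_right (by
    simp [sc, div_eq_mul_inv, mul_assoc, ENNReal.inv_mul_cancel b0 b1])
  have := h2 ℝ H (fun h' => by linarith [h' 1 one_ne_zero, l1 (τ F G) x])
    (fun h' => by linarith [h' _ (ENNReal.div_ne_top x1 a0), H2 x])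
    (fun p q => sc H _ (edist_ne_top p q)) (fun _ _ _ _ => rfl) a.toReal 0 (-b.toReal) x
  have e1 : edist a.toReal 0 = a := by simp [edist_dist, a1.ne_top]
  have e2 : edist 0 (-b.toReal) = b := by simp [edist_dist, b1]
  have e3 : edist a.toReal (-b.toReal) = x := by
    rw [edist_dist, Real.dist_eq, sub_neg_eq_add, ← ENNReal.toReal_add a1.ne_top b1, e,
      abs_of_nonneg ENNReal.toReal_nonneg, ENNReal.ofReal_toReal x1]
  have m1 := h1.2.2.1 F (sc H _ (edist_ne_top a.toReal 0)) G (fun z => by simpa [sc, e1] using H2 z) x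
  have m2 := h1.2.2.1 G (sc H _ (edist_ne_top 0 (-b.toReal))) (sc H _ (edist_ne_top a.toReal 0))
    (fun z => by simpa [sc, e2] using H3 z) x
  rw [h1.1 G, h1.1 (sc H _ (edist_ne_top 0 _))] at m2
  have m3 : (sc H _ (edist_ne_top a.toReal (-b.toReal))).f x = H.f 1 := by
    simp [sc, e3, ENNReal.div_self x0 x1]
  linarith

end Pool.Agent.Results.MP_6d1e65_an.Strongest
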